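import Pool.Agent.W2helper77.OB.Disc

/-!
Outer boundaries: the deterministic part.
-/

set_option autoImplicit false

namespace Pool.Agent.W2helper77.OB

open Pool.Agent.W424.OD Pool.Agent.W978.PDUL Pool.Agent.W822.PD
open H974 H12S H389NS H984P H984N H342P H342L H342T
open MeasureTheory TopologicalSpace Filter Topology

theorem body_norm {n : ℕ} (hn : 0 < n) {F : Finset Edg} {v : ℤ × ℤ} (hF : F ⊆ Plain.edges n)
    (hv : v ∈ Plain.box n) : ∀ x ∈ body n F v, ‖x‖ ≤ 2 := by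
  intro x hx
  obtain ⟨⟨h1, h2⟩, h3, h4⟩ := CPT_body_square hn hF hv hx
  refine (Complex.norm_le_abs_re_add_abs_im x).trans ?_
  rw [abs_of_nonneg h1, abs_of_nonneg h3]
  linarith

/-- points of `outside` are farther from the cluster than from the boundary -/
theorem far_cluster {n : ℕ} {F : Finset Edg} {v : ℤ × ℤ} (ho : IsOpen (outside n F v)) {x y : ℂ}
    {ζ : ℝ} (hx : x ∈ outside n F v) (hy : y ∈ body n F v)
    (hfar : ∀ p ∈ outerBoundary n F v, ζ < dist x p) : ζ < dist x y := by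
  have hseg : IsPreconnected (segment ℝ x y) := (convex_segment x y).isPreconnected
  have hnd : ¬ Disjoint (segment ℝ x y) (frontier (outside n F v)) := by
    intro h
    have := conn_subset ho hseg ⟨x, left_mem_segment ℝ x y, hx⟩ h (right_mem_segment ℝ x y)
    exact this.1 hy
  rw [Set.not_disjoint_iff] at hnd
  obtain ⟨p, hp1, hp2⟩ := hnd
  have h1 := hfar p hp2
  have h2 := dist_add_dist_of_mem_segment hp1
  have h3 : 0 ≤ dist p y := dist_nonneg
  linarith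

/-- the deterministic part -/
theorem det {z : ℂ} {r d ζ : ℝ} {n : ℕ} (hn : 0 < n) (hδr : 1 / (n : ℝ) ≤ r)
    (hd : 256 * (r + 3 / (n : ℝ)) ≤ d) (hd1 : d ≤ 4) (hz : ‖z‖ ≤ 2) {F : Finset Edg} {v : ℤ × ℤ}
    (hF : F ⊆ Plain.edges n) (hv : v ∈ Plain.box n) {K : NonemptyCompacts ℂ}
    (hK : (K : Set ℂ) = outerBoundary n F v) (hζ : 4 / (n : ℝ) ≤ ζ) (hE : K ∈ EvK z r (d / 2) ζ) :
    A3v (ctc (1 / n) z) (⌈(r + 3 / (n : ℝ)) / (1 / (n : ℝ))⌉₊ + 3) ⌊d / (8 * (1 / (n : ℝ)))⌋₊ ↑F := by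
  have hn' : (0:ℝ) < n := by exact_mod_cast hn
  have hδ : (0:ℝ) < 1 / n := by positivity
  have e4 : (4:ℝ) / n = 4 * (1 / n) := by ring
  have e3 : (3:ℝ) / n = 3 * (1 / n) := by ring
  rw [e3] at hd
  obtain ⟨⟨x1, hx1, hx1z⟩, ⟨x2, hx2, hx2z⟩, g, hg0, hg1, hgK⟩ := hE
  rw [hK] at hx1 hx2 hgK
  have hx1z' : dist x1 z < r := hx1z
  have hx2z' : d / 2 < dist x2 z := hx2z
  obtain ⟨u1, _, hu1, _, _, hu1r, hu1i⟩ := t_TOPB n F v hn hF hv x1 hx1
  obtain ⟨u2, _, hu2, _, _, hu2r, hu2i⟩ := t_TOPB n F v hn hF hv x2 hx2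
  have hp1 : dist (pt n u1) x1 ≤ 2 * (1 / n) := by
    rw [dist_comm]
    refine (dist_le_abs _ _).trans ?_
    linarith
  have hp2 : dist (pt n u2) x2 ≤ 2 * (1 / n) := by
    rw [dist_comm]
    refine (dist_le_abs _ _).trans ?_
    linarith
  have ho : IsOpen (outside n F v) := TOPB_isOpen hF hv
  have hbn := body_norm hn hF hv
  -- the path stays in the unbounded component
  have hg1' : g 1 ∈ outside n F v := far_outside hbn (by linarith)
  have hdisj : Disjoint (Set.range g) (frontier (outside n F v)) := by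
    rw [Set.disjoint_left]
    rintro _ ⟨t, rfl⟩ h
    have h1 : ζ < dist (g t) (g t) := hgK h t
    rw [dist_self] at h1
    have : 0 < ζ := lt_of_lt_of_le (by positivity) hζ
    linarith
  have hgo : ∀ t, g t ∈ outside n F v := by
    intro t
    exact conn_subset ho (isPreconnected_range g.continuous) ⟨g 1, ⟨1, rfl⟩, hg1'⟩ hdisj ⟨t, rfl⟩
  have hA : ∀ t, ∀ u ∈ Plain.cluster F v, 4 / (n : ℝ) < dist (g t) (pt n u) := by
    intro t u hu
    refine lt_of_le_of_lt hζ (far_cluster ho (hgo t) ?_ fun p hp => hgK hp t)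
    exact Or.inl (Set.mem_biUnion hu rfl)
  have hpath := lattice_path hn (Plain.cluster F v) g hA
  have hBX : ∀ u : ℤ × ℤ, dist (pt n u) z ≤ (r + 3 / (n : ℝ)) + 1 / n →
      BX (ctc (1 / n) z) (⌈(r + 3 / (n : ℝ)) / (1 / (n : ℝ))⌉₊ + 3) u := by
    intro u hu
    exact near_boxC hn hu
  have hnb : ∀ u : ℤ × ℤ, d / 2 - 2 * (1 / n) < dist (pt n u) z →
      ¬ BX (ctc (1 / n) z) ⌊d / (8 * (1 / (n : ℝ)))⌋₊ u := by
    intro u hu hin
    have h5 := box_nearC hn hin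
    have hk : (⌊d / (8 * (1 / (n : ℝ)))⌋₊ : ℝ) ≤ d / (8 * (1 / (n : ℝ))) :=
      Nat.floor_le (by
        have : 0 < d := by linarith
        positivity)
    have h6 : 2 * (1 / (n : ℝ)) * (⌊d / (8 * (1 / (n : ℝ)))⌋₊ : ℝ) ≤ d / 4 := by
      calc 2 * (1 / (n : ℝ)) * (⌊d / (8 * (1 / (n : ℝ)))⌋₊ : ℝ) ≤
            2 * (1 / (n : ℝ)) * (d / (8 * (1 / (n : ℝ)))) :=
            mul_le_mul_of_nonneg_left hk (by positivity)
        _ = d / 4 := by
            have : (n : ℝ) ≠ 0 := by positivity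
            field_simp
            ring
    linarith
  have hsz : ⌈(r + 3 / (n : ℝ)) / (1 / (n : ℝ))⌉₊ + 3 ≤ ⌊d / (8 * (1 / (n : ℝ)))⌋₊ := by
    have h1 : 256 * (r + 3 / (n : ℝ)) ≤ d := by rw [e3]; exact hd
    obtain ⟨s1, _, _, _⟩ := Pool.Agent.W462.DPL.sizes hδ
      (show 1 / (n : ℝ) ≤ r + 3 / (n : ℝ) by rw [e3]; linarith) h1
    omega
  refine A3v_of hsz (v := v) (x := u1) (x' := u2) (w := fl n (g 0)) (w' := fl n (g 1))
    ?_ ?_ ?_ ?_ ?_ ?_ ?_
  · apply hBX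
    have := dist_triangle (pt n u1) x1 z
    rw [e3]
    linarith
  · exact (Plain.mem_cluster F v u1).1 hu1
  · apply hnb
    have := dist_triangle_left x2 z (pt n u2)
    linarith
  · exact (Plain.mem_cluster F v u2).1 hu2
  · apply hBX
    have h1 := fl_near hn (g 0) (g 0) (g 0) (by rw [dist_self]; positivity)
      (by rw [dist_self]; positivity)
    have h2 : dist (pt n (fl n (g 0))) (g 0) ≤ 4 / n := h1
    have := dist_triangle (pt n (fl n (g 0))) (g 0) z
    rw [e4] at h2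
    rw [e3]
    linarith
  · apply hnb
    have h1 := fl_near hn (g 1) (g 1) (g 1) (by rw [dist_self]; positivity)
      (by rw [dist_self]; positivity)
    have h2 : dist (pt n (fl n (g 1))) (g 1) ≤ 4 / n := h1
    have h3 := dist_triangle_left (g 1) z (pt n (fl n (g 1)))
    have h4 : ‖g 1‖ ≤ dist (g 1) z + ‖z‖ := by
      rw [dist_eq_norm]
      have := norm_add_le (g 1 - z) z
      rwa [sub_add_cancel] at this
    rw [e4] at h2
    have h5 : 1 / (n : ℝ) ≤ 1 / 64 := by linarith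
    linarith
  · refine hpath.mono ?_
    rintro e ⟨h1, h2⟩
    exact ⟨fun h => h1 ((Plain.mem_cluster F v _).2 h), fun h => h2 ((Plain.mem_cluster F v _).2 h)⟩

end Pool.Agent.W2helper77.OB
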