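import Pool.Agent.W2helper77.OB.Top
import Pool.Agent.W424.OD.Ann
import Pool.Agent.W978.PD.UL
import Pool.Agent.H342R3.Lim.TOPB
import Pool.Agent.H342R3.Lim.CPT

/-!
Outer boundaries: from the plane to the lattice.
-/

set_option autoImplicit false

namespace Pool.Agent.W2helper77.OB

open Pool.Agent.W424.OD Pool.Agent.W978.PDUL Pool.Agent.W822.PD
open H974 H12S H389NS H984P H984N H342P H342L H342T
open MeasureTheory TopologicalSpace Filter Topology

/-- the lattice point of `z` -/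
noncomputable def fl (n : ℕ) (z : ℂ) : ℤ × ℤ := (⌊(n : ℝ) * z.re⌋, ⌊(n : ℝ) * z.im⌋)

/-- one coordinate -/
theorem fl1 {n : ℕ} (hn : 0 < n) (a b : ℝ) (h : |a - b| ≤ 1 / (n : ℝ)) :
    |(⌊(n : ℝ) * a⌋ : ℝ) / n - b| ≤ 2 / (n : ℝ) := by
  have hn' : (0:ℝ) < n := by exact_mod_cast hn
  have h1 := Int.floor_le ((n : ℝ) * a)
  have h2 := Int.lt_floor_add_one ((n : ℝ) * a)
  have h3 : |(⌊(n : ℝ) * a⌋ : ℝ) / n - a| ≤ 1 / n := by
    have e : (⌊(n : ℝ) * a⌋ : ℝ) / n - a = ((⌊(n : ℝ) * a⌋ : ℝ) - n * a) / n := by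
      field_simp
    rw [e, abs_div, Nat.abs_cast]
    refine div_le_div_of_nonneg_right ?_ hn'.le
    rw [abs_le]
    constructor <;> linarith
  have h4 : (⌊(n : ℝ) * a⌋ : ℝ) / n - b = ((⌊(n : ℝ) * a⌋ : ℝ) / n - a) + (a - b) := by ring
  rw [h4]
  refine (abs_add_le _ _).trans ?_
  have : (2:ℝ) / n = 1 / n + 1 / n := by ring
  linarith

theorem dist_le_abs (x y : ℂ) : dist x y ≤ |x.re - y.re| + |x.im - y.im| := by
  rw [dist_eq_norm]
  have := Complex.norm_le_abs_re_add_abs_im (x - y)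
  rwa [Complex.sub_re, Complex.sub_im] at this

theorem fl_near {n : ℕ} (hn : 0 < n) (x y z : ℂ) (h1 : dist x z ≤ 1 / n) (h2 : dist y z ≤ 1 / n) :
    dist (pt n ((fl n x).1, (fl n y).2)) z ≤ 4 / n := by
  refine (dist_le_abs _ _).trans ?_
  have a1 : |x.re - z.re| ≤ 1 / n := by
    have := Complex.abs_re_le_norm (x - z)
    rw [Complex.sub_re, ← dist_eq_norm] at this
    linarith
  have a2 : |y.im - z.im| ≤ 1 / n := by
    have := Complex.abs_im_le_norm (y - z)
    rw [Complex.sub_im, ← dist_eq_norm] at this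
    linarith
  have b1 := fl1 hn _ _ a1
  have b2 := fl1 hn _ _ a2
  have e1 : (pt n ((fl n x).1, (fl n y).2)).re = (⌊(n : ℝ) * x.re⌋ : ℝ) / n := rfl
  have e2 : (pt n ((fl n x).1, (fl n y).2)).im = (⌊(n : ℝ) * y.im⌋ : ℝ) / n := rfl
  rw [e1, e2]
  have : (4:ℝ) / n = 2 / n + 2 / n := by ring
  linarith

/-- one step of length less than `1 / n` -/
theorem fl_step {n : ℕ} (hn : 0 < n) {x y : ℂ} (h : dist x y < 1 / n) :
    |(fl n x).1 - (fl n y).1| ≤ 1 ∧ |(fl n x).2 - (fl n y).2| ≤ 1 := by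
  have hn' : (0:ℝ) < n := by exact_mod_cast hn
  have key : ∀ a b : ℝ, |a - b| < 1 / n → |⌊(n : ℝ) * a⌋ - ⌊(n : ℝ) * b⌋| ≤ 1 := by
    intro a b hab
    rw [abs_lt, lt_div_iff₀ hn', ← neg_div, div_lt_iff₀ hn'] at hab
    have h1 := Int.floor_le ((n : ℝ) * a)
    have h2 := Int.lt_floor_add_one ((n : ℝ) * a)
    have h3 := Int.floor_le ((n : ℝ) * b)
    have h4 := Int.lt_floor_add_one ((n : ℝ) * b)
    have h5 : ((⌊(n : ℝ) * a⌋ : ℤ) : ℝ) < ((⌊(n : ℝ) * b⌋ + 2 : ℤ) : ℝ) := by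
      push_cast
      nlinarith
    have h6 : ((⌊(n : ℝ) * b⌋ : ℤ) : ℝ) < ((⌊(n : ℝ) * a⌋ + 2 : ℤ) : ℝ) := by
      push_cast
      nlinarith
    have h7 : ⌊(n : ℝ) * a⌋ < ⌊(n : ℝ) * b⌋ + 2 := by exact_mod_cast h5
    have h8 : ⌊(n : ℝ) * b⌋ < ⌊(n : ℝ) * a⌋ + 2 := by exact_mod_cast h6
    rw [abs_le]
    omega
  constructor
  · apply key
    have := Complex.abs_re_le_norm (x - y)
    rw [Complex.sub_re, ← dist_eq_norm] at this
    linarith
  · apply key
    have := Complex.abs_im_le_norm (x - y)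
    rw [Complex.sub_im, ← dist_eq_norm] at this
    linarith

/-- Neighbours which are not in `A`. -/
theorem adj_avoid {A : Set Vtx} {u v : Vtx} (hu : u ∉ A) (hv : v ∉ A)
    (h : (u.1 = v.1 ∧ |u.2 - v.2| ≤ 1) ∨ (u.2 = v.2 ∧ |u.1 - v.1| ≤ 1)) :
    Reach {e | src e ∉ A ∧ tgt e ∉ A} u v := by
  obtain ⟨a, b⟩ := u
  obtain ⟨c, d⟩ := v
  simp only at h
  rcases h with ⟨h1, h2⟩ | ⟨h1, h2⟩
  · subst h1
    rw [abs_le] at h2
    rcases (show b = d ∨ b = d + 1 ∨ d = b + 1 by omega) with h3 | h3 | h3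
    · subst h3; exact Reach.refl _ _
    · subst h3
      refine Adj.reach ⟨(a, d, false), ⟨?_, ?_⟩, Or.inr ⟨rfl, by rw [tgt_false]⟩⟩
      · exact hv
      · rw [tgt_false]; exact hu
    · subst h3
      refine Adj.reach ⟨(a, b, false), ⟨?_, ?_⟩, Or.inl ⟨rfl, by rw [tgt_false]⟩⟩
      · exact hu
      · rw [tgt_false]; exact hv
  · subst h1
    rw [abs_le] at h2
    rcases (show a = c ∨ a = c + 1 ∨ c = a + 1 by omega) with h3 | h3 | h3
    · subst h3; exact Reach.refl _ _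
    · subst h3
      refine Adj.reach ⟨(c, b, true), ⟨?_, ?_⟩, Or.inr ⟨rfl, by rw [tgt_true]⟩⟩
      · exact hv
      · rw [tgt_true]; exact hu
    · subst h3
      refine Adj.reach ⟨(a, b, true), ⟨?_, ?_⟩, Or.inl ⟨rfl, by rw [tgt_true]⟩⟩
      · exact hu
      · rw [tgt_true]; exact hv

/-- A path far from `A` gives a lattice path which avoids `A`. -/
theorem lattice_path {n : ℕ} (hn : 0 < n) (A : Set Vtx) (g : C(unitInterval, ℂ))
    (hA : ∀ t, ∀ u ∈ A, 4 / (n : ℝ) < dist (g t) (pt n u)) :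
    Reach {e | src e ∉ A ∧ tgt e ∉ A} (fl n (g 0)) (fl n (g 1)) := by
  have hn' : (0:ℝ) < n := by exact_mod_cast hn
  have huc : UniformContinuous g := CompactSpace.uniformContinuous_of_continuous g.continuous
  rw [Metric.uniformContinuous_iff] at huc
  obtain ⟨δ, hδ, hg⟩ := huc (1 / (n : ℝ)) (by positivity)
  obtain ⟨M, hM⟩ := exists_nat_gt (1 / δ)
  have hM0 : (0:ℝ) < M := lt_trans (by positivity) hM
  have hM1 : 0 < M := by exact_mod_cast hM0
  have hmem : ∀ i : ℕ, i ≤ M → (i : ℝ) / M ∈ Set.Icc (0:ℝ) 1 := by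
    intro i hi
    have : (i : ℝ) ≤ M := by exact_mod_cast hi
    exact ⟨by positivity, by rw [div_le_one hM0]; exact this⟩
  -- one step
  have hstep : ∀ x y : ℂ, dist x y < 1 / (n : ℝ) → (∀ u ∈ A, 4 / (n : ℝ) < dist x (pt n u)) →
      (∀ u ∈ A, 4 / (n : ℝ) < dist y (pt n u)) →
      Reach {e | src e ∉ A ∧ tgt e ∉ A} (fl n x) (fl n y) := by
    intro x y hxy hx hy
    obtain ⟨s1, s2⟩ := fl_step hn hxy
    have n1 : fl n x ∉ A := by
      intro h
      have h1 := hx _ h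
      have h2 := fl_near hn x x x (by rw [dist_self]; positivity) (by rw [dist_self]; positivity)
      rw [dist_comm] at h2
      exact absurd h1 (not_lt.2 h2)
    have n2 : fl n y ∉ A := by
      intro h
      have h1 := hy _ h
      have h2 := fl_near hn y y y (by rw [dist_self]; positivity) (by rw [dist_self]; positivity)
      rw [dist_comm] at h2
      exact absurd h1 (not_lt.2 h2)
    have n3 : ((fl n x).1, (fl n y).2) ∉ A := by
      intro h
      have h1 := hx _ h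
      have h2 := fl_near hn x y x (by rw [dist_self]; positivity) (by rw [dist_comm]; exact hxy.le)
      rw [dist_comm] at h2
      exact absurd h1 (not_lt.2 h2)
    refine Reach.trans (adj_avoid n1 n3 (Or.inl ⟨rfl, s2⟩)) (adj_avoid n3 n2 (Or.inr ⟨rfl, s1⟩))
  have key : ∀ i : ℕ, (hi : i ≤ M) → Reach {e | src e ∉ A ∧ tgt e ∉ A} (fl n (g 0))
      (fl n (g ⟨(i : ℝ) / M, hmem i hi⟩)) := by
    intro i
    induction i with
    | zero =>
      intro hi
      have : (⟨((0 : ℕ) : ℝ) / M, hmem 0 hi⟩ : unitInterval) = 0 := by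
        apply Subtype.ext
        simp
      rw [this]
      exact Reach.refl _ _
    | succ i ih =>
      intro hi
      refine (ih (by omega)).trans (hstep _ _ ?_ (hA _) (hA _))
      apply hg
      rw [Subtype.dist_eq, Real.dist_eq]
      show |(i : ℝ) / M - ((i + 1 : ℕ) : ℝ) / M| < δ
      have e : (i : ℝ) / M - ((i + 1 : ℕ) : ℝ) / M = -(1 / M) := by
        push_cast
        field_simp
        ring
      rw [e, abs_neg, abs_of_pos (by positivity)]
      rw [div_lt_iff₀ hδ] at hM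
      rw [div_lt_iff₀ hM0]
      linarith
  have h1 := key M le_rfl
  have : (⟨((M : ℕ) : ℝ) / M, hmem M le_rfl⟩ : unitInterval) = 1 := by
    apply Subtype.ext
    show (M : ℝ) / M = 1
    exact div_self hM0.ne'
  rw [this] at h1
  exact h1

/-- Points far away are in the unbounded component. -/
theorem far_outside {n : ℕ} {F : Finset Edg} {v : ℤ × ℤ} (hb : ∀ x ∈ body n F v, ‖x‖ ≤ 2) {z : ℂ}
    (hz : 2 < ‖z‖) : z ∈ outside n F v := by
  have hzb : z ∈ (body n F v)ᶜ := fun h => absurd (hb z h) (not_le.2 hz)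
  refine ⟨hzb, fun hbd => ?_⟩
  set R : Set ℂ := (fun t : ℝ => (t : ℂ) * z) '' Set.Ici 1 with hR
  have hRc : IsPreconnected R := isPreconnected_Ici.image _ (by fun_prop)
  have hRb : R ⊆ (body n F v)ᶜ := by
    rintro _ ⟨t, ht, rfl⟩ h
    have h1 := hb _ h
    rw [norm_mul, Complex.norm_real, Real.norm_eq_abs, abs_of_nonneg (by
      have := Set.mem_Ici.1 ht; linarith)] at h1
    have := Set.mem_Ici.1 ht
    nlinarith
  have hzR : z ∈ R := ⟨1, Set.mem_Ici.2 le_rfl, by simp⟩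
  have hsub := hRc.subset_connectedComponentIn hzR hRb
  obtain ⟨B, hB⟩ := isBounded_iff_forall_norm_le.1 (hbd.subset hsub)
  have h2 := hB (((|B| + 1 : ℝ) : ℂ) * z) ⟨|B| + 1, Set.mem_Ici.2 (by linarith [abs_nonneg B]), rfl⟩
  rw [norm_mul, Complex.norm_real, Real.norm_eq_abs, abs_of_nonneg (by positivity)] at h2
  have := le_abs_self B
  nlinarith [abs_nonneg B]

end Pool.Agent.W2helper77.OB
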