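import Pool.Agent.W2helper77.OB.Up
import Pool.Agent.H342R3.Lim.SQ
import Pool.Agent.H342R3.Lim.CPT

/-!
Outer boundaries: the upper bound for compact sets and for curves.
-/

set_option autoImplicit false

namespace Pool.Agent.W2helper77.OB

open Pool.Agent.W424.OD Pool.Agent.W822.PD
open H974 H12S Finset H389NS H984P H984N H342P H342L H342T
open MeasureTheory TopologicalSpace Filter Topology
open scoped ENNReal NNReal

theorem SQ_one : dimH {z : ℂ | ((0 ≤ z.re ∧ z.re ≤ 1) ∧ (0 ≤ z.im ∧ z.im ≤ 1)) ∧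
    ¬ ((0 < z.re ∧ z.re < 1) ∧ (0 < z.im ∧ z.im < 1))} ≤ 1 := by
  have hsub : {z : ℂ | ((0 ≤ z.re ∧ z.re ≤ 1) ∧ (0 ≤ z.im ∧ z.im ≤ 1)) ∧
      ¬ ((0 < z.re ∧ z.re < 1) ∧ (0 < z.im ∧ z.im < 1))} ⊆
      ((Set.range fun t : ℝ => (0 : ℂ) + (t : ℂ) * 1) ∪
        (Set.range fun t : ℝ => Complex.I + (t : ℂ) * 1)) ∪
      ((Set.range fun t : ℝ => (0 : ℂ) + (t : ℂ) * Complex.I) ∪
        (Set.range fun t : ℝ => (1 : ℂ) + (t : ℂ) * Complex.I)) := by
    rintro z ⟨⟨⟨h1, h2⟩, h3, h4⟩, h5⟩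
    by_cases a1 : z.re = 0
    · right; left; exact ⟨z.im, by apply Complex.ext <;> simp [a1]⟩
    by_cases a2 : z.re = 1
    · right; right; exact ⟨z.im, by apply Complex.ext <;> simp [a2]⟩
    by_cases a3 : z.im = 0
    · left; left; exact ⟨z.re, by apply Complex.ext <;> simp [a3]⟩
    by_cases a4 : z.im = 1
    · left; right; exact ⟨z.re, by apply Complex.ext <;> simp [a4]⟩
    exfalso
    apply h5
    refine ⟨⟨lt_of_le_of_ne h1 (Ne.symm a1), lt_of_le_of_ne h2 a2⟩,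
      lt_of_le_of_ne h3 (Ne.symm a3), lt_of_le_of_ne h4 a4⟩
  refine (dimH_mono hsub).trans ?_
  rw [dimH_union, dimH_union, dimH_union]
  exact max_le (max_le (SQ_line _ _) (SQ_line _ _)) (max_le (SQ_line _ _) (SQ_line _ _))

/-- **The outer boundary of the limits has dimension at most `4/3`: compact sets.** -/
theorem upper_sets (hU : U3) (hC : St_CPT) {sel : (n : ℕ) → Finset Plain.Edge → ℤ × ℤ}
    (hsel : ∀ n F, 0 < n → F ⊆ Plain.edges n → Plain.Largest n F (sel n F))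
    {k : ℕ → ℕ} (hk : Tendsto k atTop atTop) {μ : ProbabilityMeasure (NonemptyCompacts ℂ)}
    (hμ : Tendsto (fun i => lawOf (k i) (fun F => bdOf hC (k i) F (sel (k i) F))) atTop (𝓝 μ)) :
    ∀ᵐ K : NonemptyCompacts ℂ ∂(μ : Measure (NonemptyCompacts ℂ)),
      dimH (oB (K : Set ℂ)) ≤ 4 / 3 := by
  filter_upwards [upO hU hC hsel hk hμ, fin_square hC hsel hk hμ] with K k1 k2
  have hsub : oB (K : Set ℂ) ⊆ (oB (K : Set ℂ) ∩ Sq) ∪
      {z : ℂ | ((0 ≤ z.re ∧ z.re ≤ 1) ∧ (0 ≤ z.im ∧ z.im ≤ 1)) ∧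
        ¬ ((0 < z.re ∧ z.re < 1) ∧ (0 < z.im ∧ z.im < 1))} := by
    intro z hz
    by_cases h : z ∈ Sq
    · exact Or.inl ⟨hz, h⟩
    · refine Or.inr ⟨k2 (oB_subset K.isCompact.isClosed hz), fun h' => h ?_⟩
      exact ⟨h'.1.1, h'.1.2, h'.2.1, h'.2.2⟩
  refine (dimH_mono hsub).trans ?_
  rw [dimH_union]
  refine max_le k1 (SQ_one.trans ?_)
  rw [ENNReal.le_div_iff_mul_le (by left; norm_num) (by left; norm_num)]
  norm_num

/-- **The outer boundary of the limits has dimension at most `4/3`: curves.** -/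
theorem upper_curves (hU : U3) (hC : St_CPT) {sel : (n : ℕ) → Finset Plain.Edge → ℤ × ℤ}
    (hsel : ∀ n F, 0 < n → F ⊆ Plain.edges n → Plain.Largest n F (sel n F))
    {γ : (n : ℕ) → Finset Plain.Edge → Curve}
    (hγ : ∀ n F, 0 < n → F ⊆ Plain.edges n →
      Set.range (γ n F).path = outerBoundary n F (sel n F))
    {k : ℕ → ℕ} (hk : Tendsto k atTop atTop) {μ : ProbabilityMeasure Curve}
    (hμ : Tendsto (fun i => lawOf (k i) (γ (k i))) atTop (𝓝 μ)) :
    ∀ᵐ c : Curve ∂(μ : Measure Curve), dimH (oB (Set.range c.path)) ≤ 4 / 3 := by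
  have hm : Measurable Curve.trace := Curve.continuous_trace.measurable
  have h1 := ProbabilityMeasure.tendsto_map_of_tendsto_of_continuous _ μ hμ
    Curve.continuous_trace
  have h2 : (fun i => (lawOf (k i) (γ (k i))).map hm.aemeasurable) =ᶠ[atTop]
      fun i => lawOf (k i) (fun F => bdOf hC (k i) F (sel (k i) F)) := by
    filter_upwards [tendsto_atTop.mp hk 1] with i hi
    rw [lawOf_map _ _ hm]
    apply lawOf_congr
    intro F hF
    apply NonemptyCompacts.ext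
    rw [Curve.coe_trace, hγ _ _ hi hF, coe_bdOf]
  have h3 := upper_sets hU hC hsel hk (h1.congr' h2)
  exact ae_of_ae_map hm.aemeasurable (μ := (μ : Measure Curve))
    (p := fun K : NonemptyCompacts ℂ => dimH (oB (K : Set ℂ)) ≤ 4 / 3) h3

end Pool.Agent.W2helper77.OB
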