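import Pool.Agent.W2helper77.OB.Det
import Pool.Agent.H342R3.Lim.Fin

/-!
Outer boundaries: probability bound, one scale.
-/

set_option autoImplicit false

namespace Pool.Agent.W2helper77.OB

open Pool.Agent.W424.OD Pool.Agent.W978.PDUL Pool.Agent.W822.PD Pool.Agent.W462.DPL
open H974 H12S Finset H389NS H984P H984N H342P H342L H342T
open MeasureTheory TopologicalSpace Filter Topology
open scoped ENNReal NNReal

theorem Sq_norm {z : ℂ} (hz : z ∈ Sq) : ‖z‖ ≤ 2 := by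
  obtain ⟨h1, h2, h3, h4⟩ := hz
  refine (Complex.norm_le_abs_re_add_abs_im z).trans ?_
  rw [abs_of_pos h1, abs_of_pos h3]
  linarith

/-- probability bound -/
theorem prob_leO (hU : U3) (hC : St_CPT) {sel : (n : ℕ) → Finset Plain.Edge → ℤ × ℤ}
    (hsel : ∀ n F, 0 < n → F ⊆ Plain.edges n → Plain.Largest n F (sel n F)) :
    ∃ C : ℝ, 0 < C ∧ ∀ (z : ℂ) (r d ζ : ℝ) (n : ℕ), 0 < r → r ≤ d → d ≤ 1 →
      Metric.ball z d ⊆ Sq → 0 < n → 1 / (n : ℝ) ≤ r → 4 / (n : ℝ) ≤ ζ →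
        (lawOf n (fun F => bdOf hC n F (sel n F)) : Measure (NonemptyCompacts ℂ))
          (EvK z r (d / 2) ζ) ≤ ENNReal.ofReal (C * (r / d) ^ (2/3 : ℝ)) := by
  obtain ⟨C, hC0, hU'⟩ := hU
  refine ⟨(C + 1) * 1024 ^ (2/3 : ℝ), by positivity, ?_⟩
  intro z r d ζ n hr hrd hd1 hball hn hδr hζ
  have hn' : (0:ℝ) < n := by exact_mod_cast hn
  have hδ : (0:ℝ) < 1 / n := by positivity
  have hd0 : 0 < d := hr.trans_le hrd
  have e3 : (3:ℝ) / n = 3 * (1 / n) := by ring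
  rw [lawOf_apply _ _ (EvK_open z r (d / 2) ζ).measurableSet]
  apply ENNReal.ofReal_le_ofReal
  have hq : 0 < r / d := by positivity
  have hRHS : (C + 1) * 1024 ^ (2/3 : ℝ) * (r / d) ^ (2/3 : ℝ) =
      (C + 1) * (1024 * (r / d)) ^ (2/3 : ℝ) := by
    rw [Real.mul_rpow (by norm_num) hq.le]
    ring
  rw [hRHS]
  by_cases h1024 : 1024 * r ≤ d
  · set r' : ℝ := r + 3 / (n : ℝ) with hr'
    have hr'0 : 0 < r' := by rw [hr', e3]; linarith
    have hr4 : r' ≤ 4 * r := by rw [hr', e3]; linarith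
    have h256 : 256 * r' ≤ d := by linarith
    have hδr' : 1 / (n : ℝ) ≤ r' := by rw [hr', e3]; linarith
    obtain ⟨s1, s2, s3, s4⟩ := sizes hδ hδr' h256
    obtain ⟨b1, b2, b3, b4⟩ := dom_boxC hn (by linarith) hball
    have hsub : blk (ctc (1 / n) z) ⌊d / (8 * (1 / (n : ℝ)))⌋₊ ⊆ RE 0 n 0 n :=
      RE_subset b1.le b2.le b3.le b4.le
    have h1 := hU' (ctc (1 / n) z) (⌈r' / (1 / (n : ℝ))⌉₊ + 3)
      ⌊d / (8 * (1 / (n : ℝ)))⌋₊ (by omega) (by omega) (RE 0 n 0 n) hsub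
    have hmono : Plain.prob n (fun F => bdOf hC n F (sel n F) ∈ EvK z r (d / 2) ζ) ≤
        PQ (1/2) (RE 0 n 0 n) (fun F =>
          A3v (ctc (1 / n) z) (⌈r' / (1 / (n : ℝ))⌉₊ + 3) ⌊d / (8 * (1 / (n : ℝ)))⌋₊ ↑F) := by
      refine Plain.prob_le_of_pr ?_
      intro F hF hE
      exact det hn hδr h256 (by linarith) (Sq_norm (hball (Metric.mem_ball_self hd0))) hF
        (hsel n F hn hF).1 (coe_bdOf hC n F _) hζ hE
    have hle : (((⌈r' / (1 / (n : ℝ))⌉₊ + 3 : ℕ) : ℝ) / ((⌊d / (8 * (1 / (n : ℝ)))⌋₊ : ℕ) : ℝ)) ≤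
        1024 * (r / d) := by
      have hpos : (0:ℝ) < ((⌊d / (8 * (1 / (n : ℝ)))⌋₊ - 2 : ℕ) : ℝ) := by
        have : 0 < ⌊d / (8 * (1 / (n : ℝ)))⌋₊ - 2 := by omega
        exact_mod_cast this
      calc (((⌈r' / (1 / (n : ℝ))⌉₊ + 3 : ℕ) : ℝ) / ((⌊d / (8 * (1 / (n : ℝ)))⌋₊ : ℕ) : ℝ))
          ≤ (((⌈r' / (1 / (n : ℝ))⌉₊ + 3 + 2 : ℕ) : ℝ) /
            ((⌊d / (8 * (1 / (n : ℝ)))⌋₊ - 2 : ℕ) : ℝ)) := by
            apply div_le_div₀ (by positivity) _ hpos _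
            · exact_mod_cast (by omega)
            · exact_mod_cast (by omega)
        _ ≤ 256 * (r' / d) := s4
        _ ≤ 256 * (4 * r / d) := by
            apply mul_le_mul_of_nonneg_left _ (by norm_num)
            exact div_le_div_of_nonneg_right hr4 hd0.le
        _ = 1024 * (r / d) := by ring
    have hpow := Real.rpow_le_rpow (by positivity) hle (show (0:ℝ) ≤ 2/3 by norm_num)
    have h3 := mul_le_mul_of_nonneg_left hpow hC0.le
    have hx0 : 0 ≤ (1024 * (r / d)) ^ (2/3 : ℝ) := by positivity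
    have h5 := hmono.trans (h1.trans h3)
    refine h5.trans ?_
    nlinarith
  · push Not at h1024
    have h1 : Plain.prob n (fun F => bdOf hC n F (sel n F) ∈ EvK z r (d / 2) ζ) ≤ 1 := by
      rw [Plain.prob_eq]
      exact Pr_le_one okh _ _
    refine h1.trans ?_
    have h2 : 1 ≤ 1024 * (r / d) := by
      rw [← mul_div_assoc, le_div_iff₀ hd0]
      linarith
    have h3 : 1 ≤ (1024 * (r / d)) ^ (2/3 : ℝ) := Real.one_le_rpow h2 (by norm_num)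
    nlinarith

/-- the union of the events over `ζ` -/
def EvU (z : ℂ) (r ρ : ℝ) : Set (NonemptyCompacts ℂ) :=
  ⋃ m : ℕ, EvK z r ρ (1 / ((m : ℝ) + 1))

theorem EvU_open (z : ℂ) (r ρ : ℝ) : IsOpen (EvU z r ρ) := isOpen_iUnion fun _ => EvK_open _ _ _ _

/-- bound in the limit -/
theorem EvU_le {k : ℕ → ℕ} (hk : Tendsto k atTop atTop)
    {μs : ℕ → ProbabilityMeasure (NonemptyCompacts ℂ)} {μ : ProbabilityMeasure (NonemptyCompacts ℂ)}
    (hμ : Tendsto μs atTop (𝓝 μ)) {z : ℂ} {r ρ : ℝ} {p : ℝ≥0∞} (hr : 0 < r)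
    (h : ∀ ζ : ℝ, ∀ i, 0 < k i → 1 / (k i : ℝ) ≤ r → 4 / (k i : ℝ) ≤ ζ →
      (μs i : Measure (NonemptyCompacts ℂ)) (EvK z r ρ ζ) ≤ p) :
    (μ : Measure (NonemptyCompacts ℂ)) (EvU z r ρ) ≤ p := by
  unfold EvU
  have hmono : Monotone (fun m : ℕ => EvK z r ρ (1 / ((m : ℝ) + 1))) := by
    intro m m' hm
    apply EvK_mono
    exact Nat.one_div_le_one_div hm
  rw [hmono.measure_iUnion]
  refine iSup_le fun m => ?_
  refine (ProbabilityMeasure.le_liminf_measure_open_of_tendsto hμ (EvK_open _ _ _ _)).trans ?_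
  refine liminf_le_of_frequently_le (Eventually.frequently ?_)
  have hm : (0:ℝ) < 1 / ((m : ℝ) + 1) := by positivity
  obtain ⟨n0, hn0⟩ := exists_nat_gt (1 / r)
  obtain ⟨n1, hn1⟩ := exists_nat_gt (4 / (1 / ((m : ℝ) + 1)))
  have hev : ∀ᶠ i in atTop, max (max n0 n1) 1 ≤ k i := tendsto_atTop.mp hk _
  filter_upwards [hev] with i hi
  have hi0 : n0 ≤ k i := (le_max_left _ _).trans ((le_max_left _ _).trans hi)
  have hi1 : n1 ≤ k i := (le_max_right _ _).trans ((le_max_left _ _).trans hi)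
  have hi2 : 0 < k i := lt_of_lt_of_le one_pos ((le_max_right _ _).trans hi)
  have hki : (0:ℝ) < k i := by exact_mod_cast hi2
  have a0 : (n0 : ℝ) ≤ k i := by exact_mod_cast hi0
  have a1 : (n1 : ℝ) ≤ k i := by exact_mod_cast hi1
  refine h _ i hi2 ?_ ?_
  · rw [div_lt_iff₀ hr] at hn0
    rw [div_le_iff₀ hki]
    nlinarith
  · rw [div_lt_iff₀ hm] at hn1
    rw [div_le_iff₀ hki]
    nlinarith

end Pool.Agent.W2helper77.OB
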