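import Pool.Agent.W424.OD.Defs

/-!
Outer boundaries of compact sets: plane topology.
-/

set_option autoImplicit false

namespace Pool.Agent.W2helper77.OB

open Pool.Agent.W424.OD
open MeasureTheory TopologicalSpace Filter Topology

/-- The compact set `K` meets the disc `B(z, r)` and has a point at distance more than `ρ` from
`z`, and some path from `B(z, r)` to distance `10` keeps a distance larger than `ζ` from `K`. -/
def EvK (z : ℂ) (r ρ ζ : ℝ) : Set (NonemptyCompacts ℂ) :=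
  {K | ((K : Set ℂ) ∩ Metric.ball z r).Nonempty ∧ ((K : Set ℂ) ∩ {x | ρ < dist x z}).Nonempty ∧
    ∃ g : C(unitInterval, ℂ), dist (g 0) z < r ∧ 10 < ‖g 1‖ ∧
      (K : Set ℂ) ⊆ {x | ∀ t, ζ < dist (g t) x}}

theorem isOpen_far (g : C(unitInterval, ℂ)) (ζ : ℝ) : IsOpen {x : ℂ | ∀ t, ζ < dist (g t) x} := by
  have h : {x : ℂ | ∀ t, ζ < dist (g t) x}ᶜ =
      Prod.snd '' ({p : unitInterval × ℂ | dist (g p.1) p.2 ≤ ζ}) := by
    ext x
    simp only [Set.mem_compl_iff, Set.mem_ofPred_eq, not_forall, not_lt, Set.mem_image, Prod.exists,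
      exists_eq_right]
  rw [← isClosed_compl_iff, h]
  refine isClosedMap_snd_of_compactSpace _ ?_
  exact isClosed_le (by fun_prop) continuous_const

theorem EvK_open (z : ℂ) (r ρ ζ : ℝ) : IsOpen (EvK z r ρ ζ) := by
  have h1 : IsOpen {K : NonemptyCompacts ℂ | ((K : Set ℂ) ∩ Metric.ball z r).Nonempty} :=
    NonemptyCompacts.isOpen_inter_nonempty_of_isOpen Metric.isOpen_ball
  have h2 : IsOpen {K : NonemptyCompacts ℂ | ((K : Set ℂ) ∩ {x | ρ < dist x z}).Nonempty} :=
    NonemptyCompacts.isOpen_inter_nonempty_of_isOpen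
      (isOpen_lt continuous_const (continuous_id.dist continuous_const))
  have h3 : IsOpen (⋃ g ∈ {g : C(unitInterval, ℂ) | dist (g 0) z < r ∧ 10 < ‖g 1‖},
      {K : NonemptyCompacts ℂ | (K : Set ℂ) ⊆ {x | ∀ t, ζ < dist (g t) x}}) :=
    isOpen_biUnion fun g _ => NonemptyCompacts.isOpen_subsets_of_isOpen (isOpen_far g ζ)
  have h : EvK z r ρ ζ = {K : NonemptyCompacts ℂ | ((K : Set ℂ) ∩ Metric.ball z r).Nonempty} ∩
      ({K : NonemptyCompacts ℂ | ((K : Set ℂ) ∩ {x | ρ < dist x z}).Nonempty} ∩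
      (⋃ g ∈ {g : C(unitInterval, ℂ) | dist (g 0) z < r ∧ 10 < ‖g 1‖},
      {K : NonemptyCompacts ℂ | (K : Set ℂ) ⊆ {x | ∀ t, ζ < dist (g t) x}})) := by
    ext K
    simp only [EvK, Set.mem_inter_iff, Set.mem_iUnion, Set.mem_ofPred_eq, exists_prop, and_assoc]
  rw [h]
  exact h1.inter (h2.inter h3)

theorem EvK_mono {z : ℂ} {r ρ ζ ζ' : ℝ} (h : ζ ≤ ζ') : EvK z r ρ ζ' ⊆ EvK z r ρ ζ := by
  rintro K ⟨h1, h2, g, h3, h4, h5⟩
  exact ⟨h1, h2, g, h3, h4, fun x hx t => h.trans_lt (h5 hx t)⟩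

/-- The unbounded component is open. -/
theorem unb_open {K : Set ℂ} (hK : IsClosed K) : IsOpen (unb K) := by
  have hop : IsOpen Kᶜ := hK.isOpen_compl
  rw [isOpen_iff_mem_nhds]
  rintro z ⟨hz1, hz2⟩
  have h1 : IsOpen (connectedComponentIn Kᶜ z) := hop.connectedComponentIn
  refine mem_of_superset (h1.mem_nhds (mem_connectedComponentIn hz1)) ?_
  intro y hy
  refine ⟨connectedComponentIn_subset _ _ hy, ?_⟩
  rw [← connectedComponentIn_eq hy]
  exact hz2

/-- The outer boundary is a part of the set. -/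
theorem oB_subset {K : Set ℂ} (hK : IsClosed K) : oB K ⊆ K := by
  intro z hz
  have hop : IsOpen Kᶜ := hK.isOpen_compl
  unfold oB at hz
  rw [(unb_open hK).frontier_eq] at hz
  obtain ⟨hz1, hz2⟩ := hz
  by_contra hcon
  apply hz2
  have h1 : IsOpen (connectedComponentIn Kᶜ z) := hop.connectedComponentIn
  have hm := h1.mem_nhds (mem_connectedComponentIn hcon)
  obtain ⟨y, hy1, hy2⟩ := mem_closure_iff_nhds.1 hz1 _ hm
  refine ⟨hcon, ?_⟩
  rw [connectedComponentIn_eq hy1]
  exact hy2.2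

/-- A point of the outer boundary near `z` forces the event, for some `ζ`. -/
theorem EvK_of_oB {K : NonemptyCompacts ℂ} {z w : ℂ} {r ρ : ℝ} (hw : w ∈ oB (K : Set ℂ))
    (hwz : dist w z < r) (hfar : ∃ x ∈ (K : Set ℂ), ρ < dist x z) :
    ∃ m : ℕ, K ∈ EvK z r ρ (1 / ((m : ℝ) + 1)) := by
  have hKc : IsCompact (K : Set ℂ) := K.isCompact
  have hKcl := hKc.isClosed
  have hwK := oB_subset hKcl hw
  -- a point of the unbounded component near `z`
  have h1 : ∃ y ∈ unb (K : Set ℂ), dist y z < r := by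
    have h2 : w ∈ closure (unb (K : Set ℂ)) := frontier_subset_closure hw
    obtain ⟨y, hy1, hy2⟩ := mem_closure_iff_nhds.1 h2 _ (Metric.isOpen_ball.mem_nhds
      (show w ∈ Metric.ball z r from hwz))
    exact ⟨y, hy2, hy1⟩
  obtain ⟨y, ⟨hyK, hyu⟩, hyz⟩ := h1
  set V := connectedComponentIn (K : Set ℂ)ᶜ y with hV
  have hVo : IsOpen V := hKcl.isOpen_compl.connectedComponentIn
  have hVc : IsConnected V := isConnected_connectedComponentIn_iff.2 hyK
  have hVp : IsPathConnected V := hVo.isConnected_iff_isPathConnected.1 hVc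
  have hx : ∃ x ∈ V, 10 < ‖x‖ := by
    by_contra hcon
    push Not at hcon
    exact hyu (isBounded_iff_forall_norm_le.2 ⟨10, hcon⟩)
  obtain ⟨x, hxV, hx10⟩ := hx
  obtain ⟨g, hg⟩ := hVp.joinedIn y (mem_connectedComponentIn hyK) x hxV
  have hgK : Disjoint (Set.range g) (K : Set ℂ) := by
    rw [Set.disjoint_left]
    rintro _ ⟨t, rfl⟩ h
    exact connectedComponentIn_subset _ _ (hg t) h
  obtain ⟨δ, hδ, hδ2⟩ := hgK.exists_thickenings (isCompact_range g.continuous) hKcl
  obtain ⟨m, hm⟩ := exists_nat_one_div_lt hδ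
  refine ⟨m, ⟨w, hwK, hwz⟩, ?_, g.toContinuousMap, ?_, ?_, ?_⟩
  · obtain ⟨x', hx', hx''⟩ := hfar
    exact ⟨x', hx', hx''⟩
  · show dist (g 0) z < r
    rw [g.source]
    exact hyz
  · show 10 < ‖g 1‖
    rw [g.target]
    exact hx10
  · intro x' hx' t
    show 1 / ((m : ℝ) + 1) < dist (g t) x'
    by_contra hcon
    push Not at hcon
    rw [Set.disjoint_left] at hδ2
    refine hδ2 (a := x') ?_ ?_
    · rw [Metric.mem_thickening_iff]
      exact ⟨g t, ⟨t, rfl⟩, by rw [dist_comm]; linarith⟩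
    · rw [Metric.mem_thickening_iff]
      exact ⟨x', hx', by rw [dist_self]; exact hδ⟩

/-- A connected set which meets an open set but not its frontier is contained in the open set. -/
theorem conn_subset {U P : Set ℂ} (hU : IsOpen U) (hP : IsPreconnected P) (h1 : (P ∩ U).Nonempty)
    (h2 : Disjoint P (frontier U)) : P ⊆ U := by
  refine hP.subset_left_of_subset_union hU (v := (closure U)ᶜ) isClosed_closure.isOpen_compl ?_ ?_ h1
  · exact Set.disjoint_left.2 fun x hx hx' => hx' (subset_closure hx)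
  · intro x hx
    by_cases hxU : x ∈ U
    · exact Or.inl hxU
    · right
      intro hc
      refine Set.disjoint_left.1 h2 hx ?_
      rw [hU.frontier_eq]
      exact ⟨hc, hxU⟩

end Pool.Agent.W2helper77.OB
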