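import Pool.Agent.W2helper77.OB.Prob

/-!
Outer boundaries: covering, upper bound for the dimension.
-/

set_option autoImplicit false

namespace Pool.Agent.W2helper77.OB

open Pool.Agent.W424.OD Pool.Agent.W978.PDUL Pool.Agent.W822.PD Pool.Agent.W462.DPL
open H974 H12S Finset H389NS H984P H984N H342P H342L H342T
open MeasureTheory TopologicalSpace Filter Topology
open scoped ENNReal NNReal

open Classical in
/-- the event which belongs to a covering set -/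
noncomputable def HO (D : Set ℂ) (d N : ℝ) (a b : ℤ) : Set (NonemptyCompacts ℂ) :=
  if h : (H934F.t10_sq N a b ∩ H934F.t10_A D d).Nonempty then EvU h.some (2 / N) (d / 2) else ∅

theorem HO_open (D : Set ℂ) (d N : ℝ) (a b : ℤ) : IsOpen (HO D d N a b) := by
  unfold HO
  split_ifs
  · exact EvU_open _ _ _
  · exact isOpen_empty

/-- The points of the outer boundary from which `K` reaches distance `d`. -/
def oBd (d : ℝ) (K : Set ℂ) : Set ℂ := {w | w ∈ oB K ∧ ∃ x ∈ K, d ≤ dist x w}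

theorem HO_of {D : Set ℂ} {d N : ℝ} (hN : 2 / N < d / 2) {a b : ℤ} {K : NonemptyCompacts ℂ}
    {A : Set ℂ} (h : ((oBd d (K : Set ℂ) ∩ A) ∩ H934F.t10_U D d N a b).Nonempty) :
    K ∈ HO D d N a b := by
  obtain ⟨w, ⟨⟨hw1, x, hx, hxw⟩, _⟩, hw2⟩ := h
  unfold H934F.t10_U at hw2
  unfold HO
  split_ifs at hw2 ⊢ with h
  · rw [Metric.mem_ball] at hw2
    obtain ⟨m, hm⟩ := EvK_of_oB (ρ := d / 2) hw1 hw2 ⟨x, hx, by
      have := dist_triangle x h.some w
      rw [dist_comm h.some w] at this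
      linarith⟩
    exact Set.mem_iUnion.2 ⟨m, hm⟩
  · exact absurd hw2 (Set.notMem_empty _)

theorem lim0O (M : ℝ) (C d t : ℝ) (hd : 0 < d) (ht : 4 / 3 < t) (m0 : ℕ) (hm0 : 1 ≤ m0) :
    Tendsto (fun m : ℕ => (2 * M * ((m + m0 : ℕ) : ℝ)) ^ 2 * ((4 / ((m + m0 : ℕ) : ℝ)) ^ t *
      (C * ((2 / ((m + m0 : ℕ) : ℝ)) / d) ^ (2 / 3 : ℝ)))) atTop (𝓝 0) := by
  have h1 : Tendsto (fun m : ℕ => ((m + m0 : ℕ) : ℝ)) atTop atTop :=
    tendsto_natCast_atTop_atTop.comp (tendsto_add_atTop_nat m0)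
  have h2 : Tendsto (fun x : ℝ => x ^ (-(t - 4 / 3))) atTop (𝓝 0) :=
    tendsto_rpow_neg_atTop (by linarith)
  have h3 := (h2.comp h1).const_mul ((2 * M) ^ 2 * (4 ^ t * (C * (2 / d) ^ (2 / 3 : ℝ))))
  rw [mul_zero] at h3
  refine h3.congr ?_
  intro m
  have hpos : (0 : ℝ) < ((m + m0 : ℕ) : ℝ) := by
    have : 0 < m + m0 := by omega
    exact_mod_cast this
  simp only [Function.comp]
  generalize ((m + m0 : ℕ) : ℝ) = x at hpos
  have e1 : (4 / x) ^ t = 4 ^ t * x ^ (-t) := by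
    rw [div_eq_mul_inv, Real.mul_rpow (by norm_num) (by positivity), Real.inv_rpow hpos.le,
      Real.rpow_neg hpos.le]
  have e2 : (2 / x / d) ^ (2 / 3 : ℝ) = (2 / d) ^ (2 / 3 : ℝ) * x ^ (-(2 / 3) : ℝ) := by
    have : 2 / x / d = (2 / d) * x⁻¹ := by field_simp
    rw [this, Real.mul_rpow (by positivity) (by positivity), Real.inv_rpow hpos.le,
      Real.rpow_neg hpos.le]
  have e3 : x ^ (-(t - 4 / 3)) = x ^ (2 : ℝ) * (x ^ (-t) * x ^ (-(2 / 3) : ℝ)) := by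
    rw [← Real.rpow_add hpos, ← Real.rpow_add hpos]
    congr 1
    ring
  rw [e1, e2, e3]
  have e4 : x ^ (2 : ℝ) = x ^ 2 := by
    rw [← Real.rpow_natCast]
    norm_num
  rw [e4]
  ring

/-- one scale -/
theorem one_scaleO {D : Set ℂ} {M : ℕ} (hM : ∀ z ∈ D, |z.re| < M ∧ |z.im| < M) {C d : ℝ}
    (hd : 0 < d) {μ : ProbabilityMeasure (NonemptyCompacts ℂ)}
    (hp : ∀ (z : ℂ) (r : ℝ), 0 < r → r ≤ d → Metric.ball z d ⊆ D →
      (μ : Measure (NonemptyCompacts ℂ)) (EvU z r (d / 2)) ≤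
          ENNReal.ofReal (C * (r / d) ^ (2 / 3 : ℝ))) {t : ℝ} (ht : 4 / 3 < t) :
    ∀ᵐ K : NonemptyCompacts ℂ ∂(μ : Measure (NonemptyCompacts ℂ)),
      dimH (oBd d (K : Set ℂ) ∩ H934F.t10_A D d) ≤ ENNReal.ofReal t := by
  obtain ⟨m1, hm1⟩ := exists_nat_gt (4 / d)
  set m0 : ℕ := m1 + 1 with hm0
  have hN : ∀ m : ℕ, (0 : ℝ) < ((m + m0 : ℕ) : ℝ) := by
    intro m
    have : 0 < m + m0 := by omega
    exact_mod_cast this
  have hNd : ∀ m : ℕ, 2 / ((m + m0 : ℕ) : ℝ) < d / 2 := by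
    intro m
    rw [div_lt_iff₀ (hN m)]
    rw [div_lt_iff₀ hd] at hm1
    have : (m1 : ℝ) ≤ ((m + m0 : ℕ) : ℝ) := by
      have : m1 ≤ m + m0 := by omega
      exact_mod_cast this
    nlinarith
  have hsub : H934F.t10_A D d ⊆ D := fun z hz => hz (Metric.mem_ball_self hd)
  refine upperG (by linarith) (μs := fun _ => μ) tendsto_const_nhds
    (fun K => oBd d (K : Set ℂ) ∩ H934F.t10_A D d)
    (ι := fun m => Fin (2 * M * (m + m0)) × Fin (2 * M * (m + m0)))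
    (fun m i => H934F.t10_U D d ((m + m0 : ℕ) : ℝ) ((i.1 : ℕ) - (M * (m + m0) : ℕ) : ℤ)
      ((i.2 : ℕ) - (M * (m + m0) : ℕ) : ℤ))
    (fun m i => HO D d ((m + m0 : ℕ) : ℝ) ((i.1 : ℕ) - (M * (m + m0) : ℕ) : ℤ)
      ((i.2 : ℕ) - (M * (m + m0) : ℕ) : ℤ))
    (fun m i => HO_open _ _ _ _ _) (fun m i K h => HO_of (hNd m) h)
    (fun m => ENNReal.ofReal (4 / ((m + m0 : ℕ) : ℝ))) ?_
    (fun m i => H934F.t10_U_ediam _ _ _ _ _)
    ?_ (fun m _ => ENNReal.ofReal (C * ((2 / ((m + m0 : ℕ) : ℝ)) / d) ^ (2 / 3 : ℝ))) ?_ ?_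
  · -- the radii tend to zero
    have h1 : Tendsto (fun m : ℕ => ((m + m0 : ℕ) : ℝ)) atTop atTop :=
      tendsto_natCast_atTop_atTop.comp (tendsto_add_atTop_nat m0)
    have h2 : Tendsto (fun m : ℕ => 4 / ((m + m0 : ℕ) : ℝ)) atTop (𝓝 0) :=
      h1.const_div_atTop 4
    have h3 := ENNReal.tendsto_ofReal h2
    rwa [ENNReal.ofReal_zero] at h3
  · -- covering
    rintro m p z ⟨_, hz⟩
    obtain ⟨h1, h2⟩ := hM z (hsub hz)
    have hb : ∀ y : ℝ, |y| < M → -((M * (m + m0) : ℕ) : ℤ) ≤ ⌊((m + m0 : ℕ) : ℝ) * y⌋ ∧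
        ⌊((m + m0 : ℕ) : ℝ) * y⌋ < ((M * (m + m0) : ℕ) : ℤ) := by
      intro y hy
      rw [abs_lt] at hy
      have hn := hN m
      constructor
      · rw [Int.le_floor]
        push_cast at hn ⊢
        nlinarith
      · rw [Int.floor_lt]
        push_cast at hn ⊢
        nlinarith
    obtain ⟨h3, h4⟩ := hb _ h1
    obtain ⟨h5, h6⟩ := hb _ h2
    refine Set.mem_iUnion.mpr ⟨(⟨(⌊((m + m0 : ℕ) : ℝ) * z.re⌋ + (M * (m + m0) : ℕ)).toNat, ?_⟩,
      ⟨(⌊((m + m0 : ℕ) : ℝ) * z.im⌋ + (M * (m + m0) : ℕ)).toNat, ?_⟩), ?_⟩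
    · rw [Int.toNat_lt (by omega)]
      have : ((2 * M * (m + m0) : ℕ) : ℤ) = 2 * ((M * (m + m0) : ℕ) : ℤ) := by
        push_cast; ring
      omega
    · rw [Int.toNat_lt (by omega)]
      have : ((2 * M * (m + m0) : ℕ) : ℤ) = 2 * ((M * (m + m0) : ℕ) : ℤ) := by
        push_cast; ring
      omega
    · have hcov := H934F.t10_U_cover (N := ((m + m0 : ℕ) : ℝ)) (hN m) hz
      simp only
      rw [Int.toNat_of_nonneg (by omega), Int.toNat_of_nonneg (by omega)]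
      rw [add_sub_cancel_right, add_sub_cancel_right]
      exact hcov
  · -- probabilities
    intro m i
    unfold HO
    split_ifs with h
    · exact Eventually.frequently (Eventually.of_forall fun n =>
        hp h.some (2 / ((m + m0 : ℕ) : ℝ)) (div_pos two_pos (hN m))
          ((hNd m).le.trans (by linarith)) h.some_mem.2)
    · refine (Eventually.of_forall fun n => ?_).frequently
      rw [measure_empty]
      exact zero_le
  · -- the sums tend to zero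
    have hl := ENNReal.tendsto_ofReal (lim0O M C d t hd ht m0 (by omega))
    rw [ENNReal.ofReal_zero] at hl
    refine tendsto_of_tendsto_of_tendsto_of_le_of_le tendsto_const_nhds hl
      (fun m => zero_le) (fun m => ?_)
    have hn := hN m
    have ht0 : 0 ≤ t := by linarith
    have h4 : 0 ≤ (4 : ℝ) / ((m + m0 : ℕ) : ℝ) := by positivity
    calc ∑ i : Fin (2 * M * (m + m0)) × Fin (2 * M * (m + m0)),
          Metric.ediam (H934F.t10_U D d ((m + m0 : ℕ) : ℝ) ((i.1 : ℕ) - (M * (m + m0) : ℕ) : ℤ)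
            ((i.2 : ℕ) - (M * (m + m0) : ℕ) : ℤ)) ^ t *
            ENNReal.ofReal (C * ((2 / ((m + m0 : ℕ) : ℝ)) / d) ^ (2 / 3 : ℝ))
        ≤ ∑ _i : Fin (2 * M * (m + m0)) × Fin (2 * M * (m + m0)),
          ENNReal.ofReal ((4 / ((m + m0 : ℕ) : ℝ)) ^ t *
            (C * ((2 / ((m + m0 : ℕ) : ℝ)) / d) ^ (2 / 3 : ℝ))) := by
          refine Finset.sum_le_sum fun i _ => ?_
          have e5 : ENNReal.ofReal ((4 / ((m + m0 : ℕ) : ℝ)) ^ t *
              (C * ((2 / ((m + m0 : ℕ) : ℝ)) / d) ^ (2 / 3 : ℝ))) =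
              ENNReal.ofReal (4 / ((m + m0 : ℕ) : ℝ)) ^ t *
                ENNReal.ofReal (C * ((2 / ((m + m0 : ℕ) : ℝ)) / d) ^ (2 / 3 : ℝ)) := by
            rw [ENNReal.ofReal_mul (by positivity), ENNReal.ofReal_rpow_of_nonneg h4 ht0]
          rw [e5]
          gcongr
          exact H934F.t10_U_ediam _ _ _ _ _
      _ ≤ ENNReal.ofReal ((2 * M * ((m + m0 : ℕ) : ℝ)) ^ 2 * ((4 / ((m + m0 : ℕ) : ℝ)) ^ t *
            (C * ((2 / ((m + m0 : ℕ) : ℝ)) / d) ^ (2 / 3 : ℝ)))) := by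
          have e : (2 * (M : ℝ) * ((m + m0 : ℕ) : ℝ)) ^ 2 =
              ((2 * M * (m + m0) * (2 * M * (m + m0)) : ℕ) : ℝ) := by
            push_cast
            ring
          rw [Finset.sum_const, Finset.card_univ, Fintype.card_prod, Fintype.card_fin,
            nsmul_eq_mul, e, ENNReal.ofReal_mul (Nat.cast_nonneg _), ENNReal.ofReal_natCast]

/-- **Upper bound for the dimension of the outer boundary of the limits, inside the square.** -/
theorem upO (hU : U3) (hC : St_CPT) {sel : (n : ℕ) → Finset Plain.Edge → ℤ × ℤ}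
    (hsel : ∀ n F, 0 < n → F ⊆ Plain.edges n → Plain.Largest n F (sel n F))
    {k : ℕ → ℕ} (hk : Tendsto k atTop atTop) {μ : ProbabilityMeasure (NonemptyCompacts ℂ)}
    (hμ : Tendsto (fun i => lawOf (k i) (fun F => bdOf hC (k i) F (sel (k i) F))) atTop (𝓝 μ)) :
    ∀ᵐ K : NonemptyCompacts ℂ ∂(μ : Measure (NonemptyCompacts ℂ)),
      dimH (oB (K : Set ℂ) ∩ Sq) ≤ 4 / 3 := by
  obtain ⟨C, hC0, hP⟩ := prob_leO hU hC hsel
  set dn : ℕ → ℝ := fun n => 1 / ((n : ℝ) + 1) with hdn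
  have hdn0 : ∀ n, 0 < dn n := fun n => by rw [hdn]; positivity
  have hdn1 : ∀ n, dn n ≤ 1 := fun n => by
    rw [hdn]
    simp only
    rw [div_le_one (by positivity)]
    have : (0:ℝ) ≤ n := Nat.cast_nonneg n
    linarith
  have h1 : ∀ n j : ℕ, ∀ᵐ K : NonemptyCompacts ℂ ∂(μ : Measure (NonemptyCompacts ℂ)),
      dimH (oBd (dn n) (K : Set ℂ) ∩ H934F.t10_A Sq (dn n)) ≤
        ENNReal.ofReal (4 / 3 + 1 / ((j : ℝ) + 1)) := by
    intro n j
    have hj : 0 < 1 / ((j : ℝ) + 1) := by positivity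
    refine one_scaleO (C := C) Sq_bdd (hdn0 n) ?_ (by linarith)
    intro z r hr hrd hb
    refine EvU_le hk hμ hr fun ζ i hi hir hiζ => ?_
    exact hP z r (dn n) ζ (k i) hr hrd (hdn1 n) hb hi hir hiζ
  have h2 : ∀ᵐ K : NonemptyCompacts ℂ ∂(μ : Measure (NonemptyCompacts ℂ)), ∀ n j : ℕ,
      dimH (oBd (dn n) (K : Set ℂ) ∩ H934F.t10_A Sq (dn n)) ≤
        ENNReal.ofReal (4 / 3 + 1 / ((j : ℝ) + 1)) := by
    rw [ae_all_iff]
    intro n
    rw [ae_all_iff]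
    intro j
    exact h1 n j
  filter_upwards [h2] with K hK
  have hKcl : IsClosed (K : Set ℂ) := K.isCompact.isClosed
  have h43 : ENNReal.ofReal (4 / 3 + 0) = 4 / 3 := by
    rw [add_zero, ENNReal.ofReal_div_of_pos (by norm_num)]
    norm_num
  by_cases hs : (K : Set ℂ).Subsingleton
  · have h3 : (oB (K : Set ℂ) ∩ Sq).Subsingleton :=
      hs.anti (Set.inter_subset_left.trans (oB_subset hKcl))
    rw [h3.dimH_zero]
    exact zero_le
  · rw [Set.not_subsingleton_iff] at hs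
    have hsub : oB (K : Set ℂ) ∩ Sq ⊆
        ⋃ n : ℕ, oBd (dn n) (K : Set ℂ) ∩ H934F.t10_A Sq (dn n) := by
      rintro z ⟨hzK, hzD⟩
      obtain ⟨ε, hε, hb⟩ := Metric.isOpen_iff.mp Sq_open z hzD
      obtain ⟨x, hx, hxz⟩ := hs.exists_ne z
      have hpos : 0 < min ε (dist x z) := lt_min hε (dist_pos.2 hxz)
      obtain ⟨n, hn⟩ := exists_nat_one_div_lt hpos
      exact Set.mem_iUnion.mpr ⟨n, ⟨hzK, x, hx, (hn.le.trans (min_le_right _ _))⟩,
        (Metric.ball_subset_ball (hn.le.trans (min_le_left _ _))).trans hb⟩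
    refine (dimH_mono hsub).trans ?_
    rw [dimH_iUnion]
    refine iSup_le fun n => ?_
    have hlim : Tendsto (fun j : ℕ => ENNReal.ofReal (4 / 3 + 1 / ((j : ℝ) + 1))) atTop
        (𝓝 (ENNReal.ofReal (4 / 3 + 0))) :=
      ENNReal.tendsto_ofReal (tendsto_const_nhds.add tendsto_one_div_add_atTop_nhds_zero_nat)
    rw [h43] at hlim
    exact ge_of_tendsto' hlim (fun j => hK n j)

end Pool.Agent.W2helper77.OB
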